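import Mathlib

set_option autoImplicit false
set_option linter.unusedSectionVars false

/-!
# The second symbolic defect polynomial of a bipartite graph is its truncated f-polynomial
-/

namespace Pool.Agent.Results.MP_6c3fc6_co.SecondDefectBipartite

open MvPolynomial

/-- The squarefree monomial `x_F = ∏_{v ∈ F} x_v`. -/
noncomputable def xmon (K : Type*) [Field K] {V : Type*} (F : Finset V) : MvPolynomial V K :=
  ∏ v ∈ F, X v

/-- The `i`-dimensional faces of the independence complex `Ind(G)`: the independent sets of `G`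
with `i + 1` elements. -/
def faces {V : Type*} (G : SimpleGraph V) (i : ℕ) : Set (Finset V) :=
  {F | G.IsIndepSet (F : Set V) ∧ F.card = i + 1}

/-- The facet ideal of the complex `Ind(G)^[i]` whose facets are the `i`-dimensional faces of
`Ind(G)`. -/
noncomputable def facetIdeal (K : Type*) [Field K] {V : Type*} (G : SimpleGraph V) (i : ℕ) :
    Ideal (MvPolynomial V K) :=
  Ideal.span (xmon K '' faces G i)

/-- The `m`-th symbolic power of (a squarefree monomial ideal) `I`: the intersection of the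
`m`-th powers of its minimal primes. -/
noncomputable def symPow {R : Type*} [CommRing R] (I : Ideal R) (m : ℕ) : Ideal R :=
  ⨅ P ∈ I.minimalPrimes, P ^ m

/-- The `m`-th symbolic defect: the minimal number of generators of the module
`I^(m) / I^m`. -/
noncomputable def sdefect {R : Type*} [CommRing R] (I : Ideal R) (m : ℕ) : ℕ :=
  (⊤ : Submodule R (↥(symPow I m) ⧸
    (Submodule.comap (Submodule.subtype (symPow I m)) (I ^ m)))).spanFinrank

/-- `f_i`: the number of `i`-dimensional faces of `Ind(G)`, that is, of independent sets with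
`i + 1` elements. -/
noncomputable def fnum {V : Type*} (G : SimpleGraph V) (i : ℕ) : ℕ := (faces G i).ncard

/-- The dimension of `Ind(G)`: the independence number minus one. -/
noncomputable def dim {V : Type*} (G : SimpleGraph V) : ℕ := G.indepNum - 1

/-- The coefficient `c_j = sdefect(F(Ind(G)^[j-1]), 2)` of `t^(j+1)` in the second symbolic
defect polynomial of `Ind(G)`. -/
noncomputable def coef (K : Type*) [Field K] {V : Type*} (G : SimpleGraph V) (j : ℕ) : ℕ :=
  sdefect (facetIdeal K G (j - 1)) 2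

/-- The `m`-th symbolic defect polynomial of `Ind(G)`. -/
noncomputable def mu (K : Type*) [Field K] {V : Type*} (G : SimpleGraph V) (m : ℕ) :
    Polynomial ℕ :=
  Polynomial.X ^ 2 * ∑ i ∈ Finset.Icc 1 (dim G - 1),
    Polynomial.C (sdefect (facetIdeal K G i) m) * Polynomial.X ^ i

/-- The finite sequence `a lo, …, a hi` is unimodal. -/
def Unimodal (a : ℕ → ℕ) (lo hi : ℕ) : Prop :=
  ∃ k, (∀ j, lo ≤ j → j < hi → j < k → a j ≤ a (j + 1)) ∧
    (∀ j, lo ≤ j → j < hi → k ≤ j → a (j + 1) ≤ a j)

/-- The finite sequence `a lo, …, a hi` has no internal zeros. -/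
def NoInternalZeros (a : ℕ → ℕ) (lo hi : ℕ) : Prop :=
  ∀ p q r, lo ≤ p → p < q → q < r → r ≤ hi → a p ≠ 0 → a r ≠ 0 → a q ≠ 0

section Monomials

variable {K : Type*} [Field K] {V : Type*} [Fintype V] [DecidableEq V]

/-- exponent vector of `x_F` -/
noncomputable def ind (F : Finset V) : V →₀ ℕ := ∑ v ∈ F, Finsupp.single v 1

lemma ind_apply (F : Finset V) (v : V) : ind F v = if v ∈ F then 1 else 0 := by
  simp [ind, Finsupp.finsetSum_apply, Finsupp.single_apply]

lemma xmon_eq (F : Finset V) : xmon K F = monomial (ind F) (1 : K) := by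
  rw [ind, monomial_sum_one]; rfl

/-- total degree -/
def dg (a : V →₀ ℕ) : ℕ := ∑ v, a v

lemma dg_ind (F : Finset V) : dg (ind F) = F.card := by
  simp [dg, ind_apply]

lemma dg_mono {a b : V →₀ ℕ} (h : a ≤ b) : dg a ≤ dg b :=
  Finset.sum_le_sum fun v _ => h v

lemma dg_add (a b : V →₀ ℕ) : dg (a + b) = dg a + dg b := by
  simp [dg, Finset.sum_add_distrib]

lemma eq_of_le_of_dg {a b : V →₀ ℕ} (h : a ≤ b) (hd : dg b ≤ dg a) : a = b := by
  ext v
  by_contra hne
  have hlt : a v < b v := lt_of_le_of_ne (h v) hne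
  have : dg a < dg b := Finset.sum_lt_sum (fun v _ => h v) ⟨v, Finset.mem_univ v, hlt⟩
  omega

lemma ind_injective : Function.Injective (ind : Finset V → V →₀ ℕ) := by
  intro F F' h
  ext v
  have := congrArg (fun a : V →₀ ℕ => a v) h
  simp only [ind_apply] at this
  by_cases h1 : v ∈ F <;> by_cases h2 : v ∈ F' <;> simp_all

variable (G : SimpleGraph V) (i : ℕ)

lemma mem_span_faces {f : MvPolynomial V K} :
    f ∈ Ideal.span (xmon K '' faces G i) ↔ ∀ a ∈ f.support, ∃ F ∈ faces G i, ind F ≤ a := by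
  have h : xmon K '' faces G i = (fun s => monomial s (1 : K)) '' (ind '' faces G i) := by
    rw [Set.image_image]
    exact Set.image_congr fun F _ => xmon_eq F
  rw [h, mem_ideal_span_monomial_image]
  simp

lemma mem_facetIdeal_sq {f : MvPolynomial V K} :
    f ∈ facetIdeal K G i ^ 2 ↔
      ∀ a ∈ f.support, ∃ F ∈ faces G i, ∃ F' ∈ faces G i, ind F + ind F' ≤ a := by
  have h : facetIdeal K G i ^ 2 = Ideal.span ((fun s => monomial s (1 : K)) ''
      {a | ∃ F ∈ faces G i, ∃ F' ∈ faces G i, a = ind F + ind F'}) := by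
    rw [pow_two, facetIdeal, Ideal.span_mul_span']
    congr 1
    ext p
    simp only [Set.mem_mul, Set.mem_image, Set.mem_ofPred_eq]
    constructor
    · rintro ⟨x, ⟨F, hF, rfl⟩, y, ⟨F', hF', rfl⟩, rfl⟩
      refine ⟨ind F + ind F', ⟨F, hF, F', hF', rfl⟩, ?_⟩
      rw [xmon_eq, xmon_eq, monomial_mul, one_mul]
    · rintro ⟨a, ⟨F, hF, F', hF', rfl⟩, rfl⟩
      refine ⟨xmon K F, ⟨F, hF, rfl⟩, xmon K F', ⟨F', hF', rfl⟩, ?_⟩
      rw [xmon_eq, xmon_eq, monomial_mul, one_mul]
  rw [h, mem_ideal_span_monomial_image]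
  constructor
  · intro hf a ha
    obtain ⟨s, ⟨F, hF, F', hF', rfl⟩, hs⟩ := hf a ha
    exact ⟨F, hF, F', hF', hs⟩
  · intro hf a ha
    obtain ⟨F, hF, F', hF', hs⟩ := hf a ha
    exact ⟨_, ⟨F, hF, F', hF', rfl⟩, hs⟩

/-- polynomials all of whose monomials have weight at least `k` on `W` -/
def J (K : Type*) [Field K] {V : Type*} [Fintype V] [DecidableEq V] (W : Finset V) (k : ℕ) :
    Ideal (MvPolynomial V K) where
  carrier := {f | ∀ a ∈ f.support, k ≤ ∑ w ∈ W, a w}
  add_mem' := by
    intro f g hf hg a ha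
    rcases Finset.mem_union.1 (MvPolynomial.support_add ha) with h | h
    · exact hf a h
    · exact hg a h
  zero_mem' := by intro a ha; simp at ha
  smul_mem' := by
    intro c f hf a ha
    rw [smul_eq_mul] at ha
    have := MvPolynomial.support_mul c f ha
    obtain ⟨b, _, b', hb', rfl⟩ := Finset.mem_add.1 this
    have := hf b' hb'
    simp only [Finsupp.add_apply, Finset.sum_add_distrib]
    omega

lemma J_mul (W : Finset V) : J K W 1 * J K W 1 ≤ J K W 2 := by
  rw [Ideal.mul_le]
  intro f hf g hg a ha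
  have := MvPolynomial.support_mul f g ha
  obtain ⟨b, hb, b', hb', rfl⟩ := Finset.mem_add.1 this
  have h1 := hf b hb
  have h2 := hg b' hb'
  simp only [Finsupp.add_apply, Finset.sum_add_distrib]
  omega

/-- the substitution killing the variables of `W` -/
noncomputable def kill (K : Type*) [Field K] {V : Type*} [DecidableEq V] (W : Finset V) :
    MvPolynomial V K →ₐ[K] MvPolynomial V K :=
  aeval fun v => if v ∈ W then 0 else X v

lemma kill_monomial_zero (W : Finset V) (a : V →₀ ℕ) (c : K) (h : 1 ≤ ∑ w ∈ W, a w) :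
    kill K W (monomial a c) = 0 := by
  obtain ⟨w, hw, haw⟩ : ∃ w ∈ W, a w ≠ 0 := by
    by_contra hcon
    push Not at hcon
    rw [Finset.sum_eq_zero hcon] at h
    omega
  rw [kill, aeval_monomial, Finsupp.prod]
  have : ∏ v ∈ a.support, (if v ∈ W then (0 : MvPolynomial V K) else X v) ^ a v = 0 := by
    refine Finset.prod_eq_zero (i := w) (Finsupp.mem_support_iff.2 haw) ?_
    rw [if_pos hw, zero_pow haw]
  rw [this, mul_zero]

lemma kill_monomial_self (W : Finset V) (a : V →₀ ℕ) (c : K) (h : ∑ w ∈ W, a w = 0) :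
    kill K W (monomial a c) = monomial a c := by
  rw [kill, aeval_monomial, monomial_eq]
  congr 1
  refine Finset.prod_congr rfl fun v hv => ?_
  have : v ∉ W := by
    intro hvW
    exact (Finsupp.mem_support_iff.1 hv) (Finset.sum_eq_zero_iff.1 h v hvW)
  show (if v ∈ W then (0 : MvPolynomial V K) else X v) ^ a v = X v ^ a v
  rw [if_neg this]

lemma ker_le_J (W : Finset V) : RingHom.ker (kill K W) ≤ J K W 1 := by
  intro f hf a ha
  by_contra hcon
  have h0 : ∑ w ∈ W, a w = 0 := by omega
  rw [RingHom.mem_ker] at hf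
  have key : coeff a (kill K W f) = coeff a f := by
    conv_lhs => rw [f.as_sum]
    rw [map_sum, coeff_sum]
    rw [Finset.sum_eq_single a]
    · rw [kill_monomial_self W a _ h0, coeff_monomial, if_pos rfl]
    · intro b _ hb
      by_cases hw : ∑ w ∈ W, b w = 0
      · rw [kill_monomial_self W b _ hw, coeff_monomial, if_neg hb]
      · rw [kill_monomial_zero W b _ (by omega), coeff_zero]
    · intro h; exact absurd ha h
  rw [hf, coeff_zero] at key
  exact (mem_support_iff.1 ha) key.symm

/-- elements of the second symbolic power have weight at least two on every cover -/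
lemma weight_of_mem_symPow {f : MvPolynomial V K} (hf : f ∈ symPow (facetIdeal K G i) 2)
    (W : Finset V) (hW : ∀ F ∈ faces G i, ∃ w ∈ F, w ∈ W) :
    ∀ a ∈ f.support, 2 ≤ ∑ w ∈ W, a w := by
  have hprime : (RingHom.ker (kill K W)).IsPrime := RingHom.ker_isPrime _
  have hle : facetIdeal K G i ≤ RingHom.ker (kill K W) := by
    rw [facetIdeal, Ideal.span_le]
    rintro _ ⟨F, hF, rfl⟩
    obtain ⟨w, hwF, hwW⟩ := hW F hF
    rw [SetLike.mem_coe, RingHom.mem_ker, xmon, map_prod]
    refine Finset.prod_eq_zero hwF ?_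
    rw [kill, aeval_X, if_pos hwW]
  obtain ⟨P, hP, hPle⟩ := Ideal.exists_minimalPrimes_le hle
  have hfP : f ∈ P ^ 2 := by
    have := (Submodule.mem_iInf _).1 hf P
    exact (Submodule.mem_iInf _).1 this hP
  have h2 : P ^ 2 ≤ J K W 2 := by
    rw [pow_two]
    exact (Ideal.mul_mono (hPle.trans (ker_le_J W)) (hPle.trans (ker_le_J W))).trans (J_mul W)
  exact h2 hfP

end Monomials

section Combinatorics

variable {V : Type*} [Fintype V] [DecidableEq V] (G : SimpleGraph V)

/-- Exchange: `(S ∪ T)` on side `A` together with `(S ∩ T)` on side `B`. -/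
def join (A B S T : Finset V) : Finset V := ((S ∪ T) ∩ A) ∪ ((S ∩ T) ∩ B)

lemma join_indep {A B S T : Finset V}
    (hA : ∀ x ∈ A, ∀ y ∈ A, ¬ G.Adj x y) (hB : ∀ x ∈ B, ∀ y ∈ B, ¬ G.Adj x y)
    (hS : G.IsIndepSet (S : Set V)) (hT : G.IsIndepSet (T : Set V)) :
    G.IsIndepSet (join A B S T : Set V) := by
  intro x hx y hy hxy hadj
  simp only [join, Finset.coe_union, Finset.coe_inter, Set.mem_union, Set.mem_inter_iff,
    Finset.mem_coe] at hx hy
  rcases hx with ⟨hx1, hx2⟩ | ⟨⟨hx1, hx1'⟩, hx2⟩ <;> rcases hy with ⟨hy1, hy2⟩ | ⟨⟨hy1, hy1'⟩, hy2⟩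
  · exact hA x hx2 y hy2 hadj
  · rcases hx1 with h | h
    · exact hS (Finset.mem_coe.2 h) (Finset.mem_coe.2 hy1) hxy hadj
    · exact hT (Finset.mem_coe.2 h) (Finset.mem_coe.2 hy1') hxy hadj
  · rcases hy1 with h | h
    · exact hS (Finset.mem_coe.2 hx1) (Finset.mem_coe.2 h) hxy hadj
    · exact hT (Finset.mem_coe.2 hx1') (Finset.mem_coe.2 h) hxy hadj
  · exact hB x hx2 y hy2 hadj

lemma card_split {A B : Finset V} (hAB : Disjoint A B) (hU : A ∪ B = Finset.univ)
    (S : Finset V) : S.card = (S ∩ A).card + (S ∩ B).card := by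
  rw [← Finset.card_union_of_disjoint, ← Finset.inter_union_distrib_left, hU,
    Finset.inter_univ]
  exact Finset.disjoint_of_subset_left Finset.inter_subset_right
    (Finset.disjoint_of_subset_right Finset.inter_subset_right hAB)

lemma join_inter_left {A B : Finset V} (hAB : Disjoint A B) (S T : Finset V) :
    join A B S T ∩ A = (S ∪ T) ∩ A := by
  ext v
  have : v ∈ A → v ∉ B := fun h h' => Finset.disjoint_left.1 hAB h h'
  simp only [join, Finset.mem_inter, Finset.mem_union]
  tauto

lemma join_inter_right {A B : Finset V} (hAB : Disjoint A B) (S T : Finset V) :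
    join A B S T ∩ B = (S ∩ T) ∩ B := by
  ext v
  have : v ∈ A → v ∉ B := fun h h' => Finset.disjoint_left.1 hAB h h'
  simp only [join, Finset.mem_inter, Finset.mem_union]
  tauto

lemma join_card {A B : Finset V} (hAB : Disjoint A B) (hU : A ∪ B = Finset.univ)
    (S T : Finset V) : (join A B S T).card + (join B A S T).card = S.card + T.card := by
  have hU' : B ∪ A = Finset.univ := by rw [Finset.union_comm]; exact hU
  rw [card_split hAB hU (join A B S T), card_split hAB.symm hU' (join B A S T),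
    join_inter_left hAB, join_inter_right hAB, join_inter_left hAB.symm,
    join_inter_right hAB.symm, card_split hAB hU S, card_split hAB hU T]
  have e1 := Finset.card_union_add_card_inter (S ∩ A) (T ∩ A)
  have e2 := Finset.card_union_add_card_inter (S ∩ B) (T ∩ B)
  rw [← Finset.union_inter_distrib_right, ← Finset.inter_inter_distrib_right] at e1 e2
  omega

/-- If `U` contains no independent set with more than `r` elements, then among the independent
subsets of `U` with `r` elements, the one with the largest part in `A` has its `B`-part contained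
in all the others. -/
lemma exists_extreme {A B : Finset V} (hAB : Disjoint A B) (hU : A ∪ B = Finset.univ)
    (hA : ∀ x ∈ A, ∀ y ∈ A, ¬ G.Adj x y) (hB : ∀ x ∈ B, ∀ y ∈ B, ¬ G.Adj x y)
    (U : Finset V) (r : ℕ) (hmax : ∀ S ⊆ U, G.IsIndepSet (S : Set V) → S.card ≤ r)
    (hex : ∃ S ⊆ U, G.IsIndepSet (S : Set V) ∧ S.card = r) :
    ∃ S ⊆ U, G.IsIndepSet (S : Set V) ∧ S.card = r ∧
      ∀ T ⊆ U, G.IsIndepSet (T : Set V) → T.card = r → S ∩ B ⊆ T := by
  classical
  set 𝓘 : Finset (Finset V) :=
    U.powerset.filter fun S => G.IsIndepSet (S : Set V) ∧ S.card = r with h𝓘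
  have hne : 𝓘.Nonempty := by
    obtain ⟨S, hS, hS1, hS2⟩ := hex
    exact ⟨S, Finset.mem_filter.2 ⟨Finset.mem_powerset.2 hS, hS1, hS2⟩⟩
  obtain ⟨S, hS𝓘, hSmax⟩ := Finset.exists_max_image 𝓘 (fun S => (S ∩ A).card) hne
  obtain ⟨hSU, hSind, hScard⟩ := by
    have := Finset.mem_filter.1 hS𝓘
    exact (⟨Finset.mem_powerset.1 this.1, this.2.1, this.2.2⟩ :
      S ⊆ U ∧ G.IsIndepSet (S : Set V) ∧ S.card = r)
  refine ⟨S, hSU, hSind, hScard, ?_⟩
  intro T hTU hTind hTcard
  have hsub : ∀ A' B' : Finset V, join A' B' S T ⊆ U := by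
    intro A' B' v hv
    simp only [join, Finset.mem_union, Finset.mem_inter] at hv
    rcases hv with ⟨h | h, _⟩ | ⟨⟨h, _⟩, _⟩
    · exact hSU h
    · exact hTU h
    · exact hSU h
  have c1 := hmax _ (hsub A B) (join_indep G hA hB hSind hTind)
  have c2 := hmax _ (hsub B A) (join_indep G hB hA hSind hTind)
  have c3 := join_card hAB hU S T
  have hj : (join A B S T).card = r := by omega
  have hmem : join A B S T ∈ 𝓘 :=
    Finset.mem_filter.2 ⟨Finset.mem_powerset.2 (hsub A B),
      join_indep G hA hB hSind hTind, hj⟩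
  have hle := hSmax _ hmem
  simp only [join_inter_left hAB] at hle
  have hAeq : S ∩ A = (S ∪ T) ∩ A :=
    Finset.eq_of_subset_of_card_le
      (Finset.inter_subset_inter_right Finset.subset_union_left) hle
  have hsplit1 := card_split hAB hU (join A B S T)
  have hsplit2 := card_split hAB hU S
  rw [join_inter_left hAB, join_inter_right hAB, ← hAeq] at hsplit1
  have hBle : (S ∩ B).card ≤ ((S ∩ T) ∩ B).card := by omega
  have hBeq : (S ∩ T) ∩ B = S ∩ B :=
    Finset.eq_of_subset_of_card_le
      (Finset.inter_subset_inter_right Finset.inter_subset_left) hBle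
  intro v hv
  rw [← hBeq] at hv
  exact (Finset.mem_inter.1 (Finset.mem_inter.1 hv).1).2

/-- The combinatorial core: a vector that has weight at least two on every cover of the
hypergraph of `(i+1)`-element independent sets dominates an independent set with `i + 2` elements
or the sum of two independent sets with `i + 1` elements. -/
lemma dominates {A B : Finset V} (hAB : Disjoint A B) (hU : A ∪ B = Finset.univ)
    (hA : ∀ x ∈ A, ∀ y ∈ A, ¬ G.Adj x y) (hB : ∀ x ∈ B, ∀ y ∈ B, ¬ G.Adj x y)
    (i : ℕ) (a : V →₀ ℕ)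
    (ha : ∀ W : Finset V, (∀ F ∈ faces G i, ∃ w ∈ F, w ∈ W) → 2 ≤ ∑ w ∈ W, a w) :
    (∃ H ∈ faces G (i + 1), ind H ≤ a) ∨
      (∃ F ∈ faces G i, ∃ F' ∈ faces G i, ind F + ind F' ≤ a) := by
  classical
  by_cases hH : ∃ H ∈ faces G (i + 1), H ⊆ a.support
  · left
    obtain ⟨H, hH, hHa⟩ := hH
    refine ⟨H, hH, ?_⟩
    intro v
    rw [ind_apply]
    split_ifs with h
    · exact Nat.one_le_iff_ne_zero.2 (Finsupp.mem_support_iff.1 (hHa h))
    · exact Nat.zero_le _
  right
  have hmax : ∀ S ⊆ a.support, G.IsIndepSet (S : Set V) → S.card ≤ i + 1 := by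
    intro S hS hSi
    by_contra hcon
    obtain ⟨S', hS'S, hS'c⟩ := Finset.exists_subset_card_eq (show i + 1 + 1 ≤ S.card by omega)
    refine hH ⟨S', ⟨?_, hS'c⟩, hS'S.trans hS⟩
    exact hSi.mono (Finset.coe_subset.2 hS'S)
  have hex : ∃ S ⊆ a.support, G.IsIndepSet (S : Set V) ∧ S.card = i + 1 := by
    by_contra hcon
    have := ha (a.supportᶜ) (by
      intro F hF
      by_contra h
      push Not at h
      refine hcon ⟨F, ?_, hF.1, hF.2⟩
      intro v hv
      have := h v hv
      rwa [Finset.mem_compl, not_not] at this)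
    have h0 : ∑ w ∈ a.supportᶜ, a w = 0 := by
      refine Finset.sum_eq_zero fun w hw => ?_
      rw [Finset.mem_compl, Finsupp.mem_support_iff, not_not] at hw
      exact hw
    omega
  have hU' : B ∪ A = Finset.univ := by rw [Finset.union_comm]; exact hU
  obtain ⟨S0, hS0U, hS0i, hS0c, hS0⟩ :=
    exists_extreme G hAB hU hA hB a.support (i + 1) hmax hex
  obtain ⟨S1, hS1U, hS1i, hS1c, hS1⟩ :=
    exists_extreme G hAB.symm hU' hB hA a.support (i + 1) hmax hex
  refine ⟨S0, ⟨hS0i, hS0c⟩, S1, ⟨hS1i, hS1c⟩, ?_⟩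
  intro v
  rw [Finsupp.add_apply, ind_apply, ind_apply]
  by_cases h0 : v ∈ S0 <;> by_cases h1 : v ∈ S1
  · rw [if_pos h0, if_pos h1]
    have hcore : ∀ T ⊆ a.support, G.IsIndepSet (T : Set V) → T.card = i + 1 → v ∈ T := by
      intro T hT hTi hTc
      have hvAB : v ∈ A ∪ B := by rw [hU]; exact Finset.mem_univ v
      rcases Finset.mem_union.1 hvAB with hvA | hvB
      · exact hS1 T hT hTi hTc (Finset.mem_inter.2 ⟨h1, hvA⟩)
      · exact hS0 T hT hTi hTc (Finset.mem_inter.2 ⟨h0, hvB⟩)
    have hw := ha (insert v a.supportᶜ) (by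
      intro F hF
      by_cases hFU : F ⊆ a.support
      · exact ⟨v, hcore F hFU hF.1 hF.2, Finset.mem_insert_self _ _⟩
      · obtain ⟨w, hwF, hwU⟩ := Finset.not_subset.1 hFU
        exact ⟨w, hwF, Finset.mem_insert_of_mem (Finset.mem_compl.2 hwU)⟩)
    rw [Finset.sum_insert (by
      rw [Finset.mem_compl, not_not]; exact hS0U h0)] at hw
    have hz : ∑ w ∈ a.supportᶜ, a w = 0 := by
      refine Finset.sum_eq_zero fun w hw => ?_
      rw [Finset.mem_compl, Finsupp.mem_support_iff, not_not] at hw
      exact hw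
    omega
  · rw [if_pos h0, if_neg h1]
    have := Finsupp.mem_support_iff.1 (hS0U h0)
    omega
  · rw [if_neg h0, if_pos h1]
    have := Finsupp.mem_support_iff.1 (hS1U h1)
    omega
  · rw [if_neg h0, if_neg h1]
    exact Nat.zero_le _

end Combinatorics

section Defect

variable {K : Type*} [Field K] {V : Type*} [Fintype V] [DecidableEq V] (G : SimpleGraph V) (i : ℕ)

lemma xmon_mem_symPow {H : Finset V} (hH : H ∈ faces G (i + 1)) :
    xmon K H ∈ symPow (facetIdeal K G i) 2 := by
  refine (Submodule.mem_iInf _).2 fun P => (Submodule.mem_iInf _).2 fun hP => ?_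
  have hprime : P.IsPrime := hP.1.1
  have hle : facetIdeal K G i ≤ P := hP.1.2
  have hface : ∀ v ∈ H, H.erase v ∈ faces G i := by
    intro v hv
    refine ⟨hH.1.mono (by simp), ?_⟩
    rw [Finset.card_erase_of_mem hv, hH.2]; rfl
  obtain ⟨v0, hv0⟩ : H.Nonempty := by
    rw [← Finset.card_pos, hH.2]; omega
  have h1 : xmon K (H.erase v0) ∈ P := hle (Ideal.subset_span ⟨_, hface v0 hv0, rfl⟩)
  obtain ⟨w, hw, hwP⟩ := (Ideal.IsPrime.prod_mem_iff).1 h1
  have hwH : w ∈ H := Finset.mem_of_mem_erase hw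
  have h2 : xmon K (H.erase w) ∈ P := hle (Ideal.subset_span ⟨_, hface w hwH, rfl⟩)
  have h3 : xmon K H = X w * xmon K (H.erase w) := (Finset.mul_prod_erase H _ hwH).symm
  rw [h3, pow_two]
  exact Ideal.mul_mem_mul hwP h2

lemma sq_le_symPow : facetIdeal K G i ^ 2 ≤ symPow (facetIdeal K G i) 2 :=
  le_iInf₂ fun _ hP => Ideal.pow_right_mono hP.1.2 2

lemma bip_parts (hG : G.IsBipartite) : ∃ A B : Finset V, Disjoint A B ∧ A ∪ B = Finset.univ ∧
    (∀ x ∈ A, ∀ y ∈ A, ¬ G.Adj x y) ∧ (∀ x ∈ B, ∀ y ∈ B, ¬ G.Adj x y) := by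
  classical
  obtain ⟨c⟩ := hG
  refine ⟨Finset.univ.filter fun v => c v = 0, Finset.univ.filter fun v => c v ≠ 0, ?_, ?_, ?_, ?_⟩
  · exact Finset.disjoint_filter_filter_not _ _ _
  · exact Finset.filter_union_filter_not_eq _ _
  · intro x hx y hy hadj
    have := c.valid hadj
    rw [Finset.mem_filter] at hx hy
    exact this (hx.2.trans hy.2.symm)
  · intro x hx y hy hadj
    have := c.valid hadj
    rw [Finset.mem_filter] at hx hy
    have h1 := hx.2
    have h2 := hy.2
    apply this
    apply Fin.ext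
    have e1 : (c x : ℕ) ≠ 0 := fun h => h1 (Fin.ext h)
    have e2 : (c y : ℕ) ≠ 0 := fun h => h2 (Fin.ext h)
    have l1 := (c x).isLt
    have l2 := (c y).isLt
    omega

lemma dominates_of_mem (hG : G.IsBipartite) {f : MvPolynomial V K}
    (hf : f ∈ symPow (facetIdeal K G i) 2) : ∀ a ∈ f.support,
    (∃ H ∈ faces G (i + 1), ind H ≤ a) ∨
      (∃ F ∈ faces G i, ∃ F' ∈ faces G i, ind F + ind F' ≤ a) := by
  intro a ha
  obtain ⟨A, B, h1, h2, h3, h4⟩ := bip_parts G hG
  exact dominates G h1 h2 h3 h4 i a fun W hW => weight_of_mem_symPow G i hf W hW a ha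

lemma symPow_le (hG : G.IsBipartite) :
    symPow (facetIdeal K G i) 2 ≤
      facetIdeal K G i ^ 2 ⊔ Ideal.span (xmon K '' faces G (i + 1)) := by
  intro f hf
  rw [f.as_sum]
  refine Ideal.sum_mem _ fun a ha => ?_
  have hsupp : ∀ b ∈ (monomial a (coeff a f) : MvPolynomial V K).support, b = a := by
    intro b hb
    have := support_monomial_subset hb
    exact Finset.mem_singleton.1 this
  rcases dominates_of_mem G i hG hf a ha with ⟨H, hH, hle⟩ | ⟨F, hF, F', hF', hle⟩
  · refine Ideal.mem_sup_right ?_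
    rw [mem_span_faces]
    intro b hb
    rw [hsupp b hb]
    exact ⟨H, hH, hle⟩
  · refine Ideal.mem_sup_left ?_
    rw [mem_facetIdeal_sq]
    intro b hb
    rw [hsupp b hb]
    exact ⟨F, hF, F', hF', hle⟩

/-- degrees of monomials in the second symbolic power -/
lemma le_dg (hG : G.IsBipartite) {f : MvPolynomial V K}
    (hf : f ∈ symPow (facetIdeal K G i) 2) (a : V →₀ ℕ) (ha : a ∈ f.support) : i + 2 ≤ dg a := by
  rcases dominates_of_mem G i hG hf a ha with ⟨H, hH, hle⟩ | ⟨F, hF, F', hF', hle⟩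
  · have := dg_mono hle
    rw [dg_ind, hH.2] at this
    omega
  · have := dg_mono hle
    rw [dg_add, dg_ind, dg_ind, hF.2, hF'.2] at this
    omega

lemma coeff_of_mem_sq (hi : 1 ≤ i) {f : MvPolynomial V K} (hf : f ∈ facetIdeal K G i ^ 2)
    {H : Finset V} (hH : H ∈ faces G (i + 1)) : coeff (ind H) f = 0 := by
  by_contra h
  obtain ⟨F, hF, F', hF', hle⟩ := (mem_facetIdeal_sq G i).1 hf _ (mem_support_iff.2 h)
  have := dg_mono hle
  rw [dg_add, dg_ind, dg_ind, dg_ind, hF.2, hF'.2, hH.2] at this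
  omega

lemma coeff_smul_mem (hG : G.IsBipartite) (g : MvPolynomial V K) {f : MvPolynomial V K}
    (hf : f ∈ symPow (facetIdeal K G i) 2) {H : Finset V} (hH : H ∈ faces G (i + 1)) :
    coeff (ind H) (g * f) = constantCoeff g * coeff (ind H) f := by
  rw [coeff_mul, Finset.sum_eq_single (0, ind H)]
  · rw [constantCoeff_eq]
  · rintro ⟨x, y⟩ hx hne
    rw [Finset.HasAntidiagonal.mem_antidiagonal] at hx
    simp only at hx ⊢
    by_contra hcon
    have hy : y ∈ f.support := by
      rw [mem_support_iff]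
      intro h0
      exact hcon (by rw [h0, mul_zero])
    have hd := le_dg G i hG hf y hy
    have hyle : y ≤ ind H := by
      rw [← hx]; exact le_add_of_nonneg_left (zero_le)
    have : y = ind H := eq_of_le_of_dg hyle (by rw [dg_ind, hH.2]; omega)
    apply hne
    rw [this] at hx
    have hx0 : x = 0 := by
      have := congrArg (fun z => z - ind H) hx
      simpa using this
    rw [hx0, this]
  · intro h
    exact absurd (Finset.HasAntidiagonal.mem_antidiagonal.2 (zero_add _)) h

theorem sdefect_eq (hG : G.IsBipartite) (hi : 1 ≤ i) :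
    sdefect (facetIdeal K G i) 2 = (faces G (i + 1)).ncard := by
  classical
  have hfin : (faces G (i + 1)).Finite := Set.toFinite _
  let _ : Fintype (faces G (i + 1)) := hfin.fintype
  have hcard : (faces G (i + 1)).ncard = Fintype.card (faces G (i + 1)) := by
    rw [← Nat.card_coe_set_eq, Nat.card_eq_fintype_card]
  set I2 := symPow (facetIdeal K G i) 2 with hI2
  set N : Submodule (MvPolynomial V K) I2 :=
    Submodule.comap (Submodule.subtype I2) (facetIdeal K G i ^ 2) with hN
  let t : faces G (i + 1) → (I2 ⧸ N) := fun H =>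
    Submodule.Quotient.mk ⟨xmon K H.1, xmon_mem_symPow G i H.2⟩
  have htop : (⊤ : Submodule (MvPolynomial V K) (I2 ⧸ N)) =
      Submodule.span (MvPolynomial V K) (Set.range t) := by
    symm
    rw [eq_top_iff]
    rintro x -
    obtain ⟨f, rfl⟩ := Submodule.Quotient.mk_surjective N x
    set L : Ideal (MvPolynomial V K) := Submodule.map (Submodule.subtype I2)
      (Submodule.comap N.mkQ (Submodule.span (MvPolynomial V K) (Set.range t))) with hL
    have hle : facetIdeal K G i ^ 2 ⊔ Ideal.span (xmon K '' faces G (i + 1)) ≤ L := by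
      refine sup_le ?_ ?_
      · intro g hg
        refine ⟨⟨g, sq_le_symPow G i hg⟩, ?_, rfl⟩
        rw [SetLike.mem_coe, Submodule.mem_comap, Submodule.mkQ_apply]
        have : (Submodule.Quotient.mk (⟨g, sq_le_symPow G i hg⟩ : I2) : I2 ⧸ N) = 0 := by
          rw [Submodule.Quotient.mk_eq_zero]
          exact hg
        rw [this]
        exact Submodule.zero_mem _
      · rw [Ideal.span_le]
        rintro _ ⟨H, hH, rfl⟩
        refine ⟨⟨xmon K H, xmon_mem_symPow G i hH⟩, ?_, rfl⟩
        rw [SetLike.mem_coe, Submodule.mem_comap, Submodule.mkQ_apply]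
        exact Submodule.subset_span ⟨⟨H, hH⟩, rfl⟩
    obtain ⟨y, hy, hyf⟩ := hle (symPow_le G i hG f.2)
    have : y = f := Subtype.ext hyf
    rw [← this]
    exact hy
  have hfg : (⊤ : Submodule (MvPolynomial V K) (I2 ⧸ N)).FG := by
    rw [htop]
    exact Submodule.fg_span (Set.finite_range t)
  refine le_antisymm ?_ ?_
  · show (⊤ : Submodule (MvPolynomial V K) (I2 ⧸ N)).spanFinrank ≤ _
    rw [htop]
    refine (Submodule.spanFinrank_span_le_ncard_of_finite (Set.finite_range t)).trans ?_
    rw [← Set.image_univ]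
    refine (Set.ncard_image_le (Set.finite_univ)).trans ?_
    rw [Set.ncard_univ, Nat.card_coe_set_eq]
  · show _ ≤ (⊤ : Submodule (MvPolynomial V K) (I2 ⧸ N)).spanFinrank
    have hsurjC : RingHomSurjective (constantCoeff (σ := V) (R := K)) :=
      ⟨fun c => ⟨C c, constantCoeff_C _ c⟩⟩
    let psi : I2 →ₛₗ[constantCoeff (σ := V) (R := K)] (faces G (i + 1) → K) :=
      { toFun := fun f H => coeff (ind H.1) f.1
        map_add' := by
          intro f g
          funext H
          simp
        map_smul' := by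
          intro g f
          funext H
          exact coeff_smul_mem G i hG g f.2 H.2 }
    have hker : N ≤ LinearMap.ker psi := by
      intro f hf
      rw [LinearMap.mem_ker]
      funext H
      exact coeff_of_mem_sq G i hi hf H.2
    let Psi := N.liftQ psi hker
    have hsurj : Function.Surjective Psi := by
      intro c
      have hmem : ∑ H : faces G (i + 1), C (c H) * xmon K H.1 ∈ I2 :=
        Ideal.sum_mem _ fun H _ => Ideal.mul_mem_left _ _ (xmon_mem_symPow G i H.2)
      refine ⟨Submodule.Quotient.mk ⟨_, hmem⟩, ?_⟩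
      show psi ⟨_, hmem⟩ = c
      funext H
      show coeff (ind H.1) (∑ H : faces G (i + 1), C (c H) * xmon K H.1) = c H
      rw [coeff_sum, Finset.sum_eq_single H]
      · rw [xmon_eq, C_mul_monomial, coeff_monomial, if_pos rfl, mul_one]
      · intro H' _ hne
        rw [xmon_eq, C_mul_monomial, coeff_monomial, if_neg]
        intro h
        exact hne (Subtype.ext (ind_injective h))
      · intro h
        exact absurd (Finset.mem_univ H) h
    have hle := Submodule.spanFinrank_map_le_of_fg Psi hfg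
    rw [Submodule.map_top, LinearMap.range_eq_top.2 hsurj,
      ← Module.finrank_eq_spanFinrank_of_free, Module.finrank_fintype_fun_eq_card] at hle
    rw [hcard]
    exact hle

end Defect

lemma fnum_ne_zero {V : Type*} [Fintype V] (G : SimpleGraph V) (j : ℕ) (h1 : 1 ≤ dim G)
    (hj : j ≤ dim G) : fnum G j ≠ 0 := by
  classical
  obtain ⟨S, hS⟩ := G.exists_isNIndepSet_indepNum
  have hc : j + 1 ≤ S.card := by
    rw [hS.card_eq]; unfold dim at h1 hj; omega
  obtain ⟨T, hTS, hTc⟩ := Finset.exists_subset_card_eq hc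
  have hT : T ∈ faces G j := ⟨hS.isIndepSet.mono (Finset.coe_subset.2 hTS), hTc⟩
  have hfin : (faces G j).Finite := Set.toFinite _
  exact fun h0 => (Set.ncard_ne_zero_of_mem hT hfin) h0

/-- For every bipartite graph `G` (in particular for every forest) and every field `K`:
for all `i ≥ 1` the second symbolic defect of the facet ideal of the complex of `i`-dimensional
faces of `Ind(G)` is the number `f_(i+1)` of `(i+1)`-dimensional faces of `Ind(G)`; hence
`μ_2(Ind(G), t) = f_2 t^3 + ⋯ + f_d t^(d+1)`, and the coefficient sequence of `μ_2(Ind(G), t)` is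
unimodal without internal zeros if and only if `(f_2, …, f_d)` is unimodal. -/
theorem result (K : Type*) [Field K] (V : Type*) [Fintype V] (G : SimpleGraph V)
    (hG : G.IsBipartite) :
    (∀ i, 1 ≤ i → sdefect (facetIdeal K G i) 2 = fnum G (i + 1)) ∧
    mu K G 2 = ∑ j ∈ Finset.Icc 2 (dim G), Polynomial.C (fnum G j) * Polynomial.X ^ (j + 1) ∧
    ((Unimodal (coef K G) 2 (dim G) ∧ NoInternalZeros (coef K G) 2 (dim G)) ↔
      Unimodal (fnum G) 2 (dim G)) := by
  classical
  have hmain : ∀ i, 1 ≤ i → sdefect (facetIdeal K G i) 2 = fnum G (i + 1) :=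
    fun i hi => sdefect_eq G i hG hi
  have hcoef : ∀ j, 2 ≤ j → coef K G j = fnum G j := by
    intro j hj
    rw [coef, hmain (j - 1) (by omega), Nat.sub_add_cancel (by omega)]
  refine ⟨hmain, ?_, ?_⟩
  · rw [mu, Finset.mul_sum]
    refine Finset.sum_nbij' (fun i => i + 1) (fun j => j - 1) ?_ ?_ ?_ ?_ ?_
    · intro i hi
      rw [Finset.mem_Icc] at hi ⊢
      omega
    · intro j hj
      rw [Finset.mem_Icc] at hj ⊢
      omega
    · intro i hi
      rw [Finset.mem_Icc] at hi
      simp
    · intro j hj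
      rw [Finset.mem_Icc] at hj
      show j - 1 + 1 = j
      omega
    · intro i hi
      rw [Finset.mem_Icc] at hi
      rw [hmain i hi.1]
      ring
  · constructor
    · rintro ⟨⟨k, h1, h2⟩, -⟩
      refine ⟨k, fun j hj hj' hk => ?_, fun j hj hj' hk => ?_⟩
      · have := h1 j hj hj' hk
        rwa [hcoef j hj, hcoef (j + 1) (by omega)] at this
      · have := h2 j hj hj' hk
        rwa [hcoef j hj, hcoef (j + 1) (by omega)] at this
    · rintro ⟨k, h1, h2⟩
      refine ⟨⟨k, fun j hj hj' hk => ?_, fun j hj hj' hk => ?_⟩, ?_⟩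
      · rw [hcoef j hj, hcoef (j + 1) (by omega)]
        exact h1 j hj hj' hk
      · rw [hcoef j hj, hcoef (j + 1) (by omega)]
        exact h2 j hj hj' hk
      · intro p q r hp hpq hqr hr _ _
        rw [hcoef q (by omega)]
        exact fnum_ne_zero G q (by omega) (by omega)

end Pool.Agent.Results.MP_6c3fc6_co.SecondDefectBipartite
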